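import Pool.Agent.Helper428.BW

set_option autoImplicit false

open Polynomial

namespace Pool.Agent.Results.MP_36ff57_co.DominatedEdge

open Pool.Agent.Helper428.Brown

/-- `χ(G; q)`, the number of proper colourings of `G` with `q` colours -/
noncomputable def chi {V : Type} (G : SimpleGraph V) (q : ℕ) : ℕ := Nat.card (G.Coloring (Fin q))

lemma cnt_univ {V : Type} [Fintype V] [DecidableEq V] (G : SimpleGraph V) (q : ℕ) :
    cnt G Finset.univ q = chi G q := by
  unfold cnt chi
  apply Nat.card_congr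
  exact
    { toFun := fun f => SimpleGraph.Coloring.mk (fun v => f.1 ⟨v, Finset.mem_univ v⟩)
        (fun {a b} h => f.2 ⟨a, Finset.mem_univ a⟩ ⟨b, Finset.mem_univ b⟩ h)
      invFun := fun c => ⟨fun v => c v.1, fun a b h => c.valid h⟩
      left_inv := fun f => rfl
      right_inv := fun c => rfl }

lemma Pr_nat {V : Type} [DecidableEq V] (G : SimpleGraph V) (S : Finset V) (q : ℕ) :
    Pr G S (q : ℝ) = cnt G S q := by
  have h1 := pol_eval G S q
  rw [Pr, ← map_natCast (algebraMap ℤ ℝ), aeval_algebraMap_apply]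
  simp only [coe_aeval_eq_eval, h1]
  simp

lemma Rr_nat {V : Type} [DecidableEq V] (G : SimpleGraph V) (S C : Finset V) (q : ℕ) :
    Rr G S C (q : ℝ) = rcnt G S C q := by
  have h1 := rpol_eval G S C q
  rw [Rr, ← map_natCast (algebraMap ℤ ℝ), aeval_algebraMap_apply]
  simp only [coe_aeval_eq_eval, h1]
  simp

/-- **Bartels–Welsh for a dominated adjacent pair.** -/
theorem result :
    ∀ (V : Type) [Fintype V] (G : SimpleGraph V) (u v : V), G.Adj u v →
      -- every neighbour of `v` other than `u` is a neighbour of `u`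
      (∀ w : V, G.Adj v w → w ≠ u → G.Adj u w) →
      ∀ q : ℕ, Fintype.card V ≤ q →
        (chi G (q - 1) : ℝ) / (chi G q : ℝ) ≤
          (chi (G.deleteEdges {s(u, v)}) (q - 1) : ℝ) / (chi (G.deleteEdges {s(u, v)}) q : ℝ) := by
  intro V _ G u v huv hdom q hq
  classical
  have huv' : u ≠ v := huv.ne
  set G' := G.deleteEdges {s(u, v)} with hG'
  set S : Finset V := Finset.univ.erase v with hS
  have huS : u ∈ S := Finset.mem_erase.2 ⟨huv', Finset.mem_univ _⟩
  have hvS : v ∉ S := Finset.notMem_erase _ _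
  have hins : insert v S = Finset.univ := Finset.insert_erase (Finset.mem_univ v)
  have hScard : S.card = Fintype.card V - 1 := by
    rw [hS, Finset.card_erase_of_mem (Finset.mem_univ v), Finset.card_univ]
  have hVpos : 1 < Fintype.card V := Fintype.one_lt_card_iff.2 ⟨u, v, huv'⟩
  set C : Finset V := (nb G v S).erase u with hC
  have hCS : C ⊆ S := (Finset.erase_subset _ _).trans (nb_subset _ _ _)
  have huC : u ∉ C := Finset.notMem_erase _ _
  have huN : u ∈ nb G v S := mem_nb.2 ⟨huS, huv.symm⟩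
  -- adjacency in G'
  have hadj' : ∀ a b : V, G'.Adj a b ↔ G.Adj a b ∧ s(a, b) ≠ s(u, v) := by
    intro a b
    rw [hG', SimpleGraph.deleteEdges_adj]
    simp
  have hagree : Agree G' G S := by
    intro a ha b hb
    rw [hadj']
    constructor
    · exact fun h => h.1
    · intro h
      refine ⟨h, fun h' => ?_⟩
      rw [Sym2.eq_iff] at h'
      rcases h' with ⟨_, h2⟩ | ⟨h1, _⟩
      · exact hvS (h2 ▸ hb)
      · exact hvS (h1 ▸ ha)
  have hmemC : ∀ y : V, y ∈ C ↔ y ≠ u ∧ y ∈ S ∧ G.Adj v y := by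
    intro y
    rw [hC, Finset.mem_erase, mem_nb]
  have hnb' : nb G' v S = C := by
    ext y
    rw [mem_nb, hmemC, hadj']
    constructor
    · rintro ⟨h1, h2, h3⟩
      refine ⟨?_, h1, h2⟩
      rintro rfl
      exact h3 (Sym2.eq_swap)
    · rintro ⟨h1, h2, h3⟩
      refine ⟨h2, h3, fun h' => ?_⟩
      rw [Sym2.eq_iff] at h'
      rcases h' with ⟨h4, _⟩ | ⟨_, h5⟩
      · exact huv' h4.symm
      · exact h1 h5
  have hstar : Agree (G ⊔ star u C) G S := by
    intro a ha b hb
    rw [SimpleGraph.sup_adj, star_adj]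
    constructor
    · rintro (h | ⟨_, ⟨h1, h2⟩ | ⟨h1, h2⟩⟩)
      · exact h
      · rw [hmemC] at h2
        rw [h1]
        exact hdom b h2.2.2 h2.1
      · rw [hmemC] at h2
        rw [h1]
        exact (hdom a h2.2.2 h2.1).symm
    · exact fun h => Or.inl h
  -- the counts
  have e1 : ∀ m : ℕ, chi G' m = rcnt G S C m := by
    intro m
    rw [← cnt_univ, ← hins, cnt_insert G' S v hvS, hnb', rcnt_congr hagree]
  have e2 : ∀ m : ℕ, chi G' m = chi G m + cnt G S m := by
    intro m
    rw [e1, rcnt_step G S C u huS huC, cnt_congr hstar, hC, Finset.insert_erase huN,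
      ← cnt_insert G S v hvS, hins, cnt_univ]
  -- the ratio function
  set r : ℝ → ℝ := fun x => Rr G S C x / Pr G S x with hr
  have hmono := rr_mono G S C hCS
  have hq1 : (1 : ℕ) ≤ q := by omega
  have hle1 : (S.card : ℝ) ≤ ((q - 1 : ℕ) : ℝ) := by
    have : S.card ≤ q - 1 := by omega
    exact_mod_cast this
  have hle2 : (S.card : ℝ) ≤ (q : ℝ) := by
    have : S.card ≤ q := by omega
    exact_mod_cast this
  have hle3 : ((q - 1 : ℕ) : ℝ) ≤ (q : ℝ) := by
    have : q - 1 ≤ q := by omega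
    exact_mod_cast this
  have hrmono : r ((q - 1 : ℕ) : ℝ) ≤ r (q : ℝ) := hmono hle1 hle2 hle3
  simp only [hr, Pr_nat, Rr_nat, ← e1] at hrmono
  -- positivity
  have hpos : ∀ m : ℕ, S.card ≤ m → 0 < cnt G S m := by
    intro m hm
    have h1 : Pr G S (m : ℝ) ≠ 0 := Pr_ne_zero G S _ (by exact_mod_cast hm)
    rw [Pr_nat] at h1
    exact Nat.pos_of_ne_zero (by exact_mod_cast h1)
  have h1 : (0 : ℝ) < cnt G S (q - 1) := by exact_mod_cast hpos (q - 1) (by omega)
  have h2 : (0 : ℝ) < cnt G S q := by exact_mod_cast hpos q (by omega)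
  have h3 : (0 : ℝ) ≤ chi G (q - 1) := Nat.cast_nonneg _
  have h4 : (0 : ℝ) ≤ chi G q := Nat.cast_nonneg _
  have e3 : (chi G' (q - 1) : ℝ) = chi G (q - 1) + cnt G S (q - 1) := by
    rw [e2]; push_cast; ring
  have e4 : (chi G' q : ℝ) = chi G q + cnt G S q := by
    rw [e2]; push_cast; ring
  rw [e3, e4] at hrmono ⊢
  rw [div_le_div_iff₀ h1 h2] at hrmono
  rcases h4.lt_or_eq with h5 | h5
  · rw [div_le_div_iff₀ h5 (by linarith)]
    nlinarith
  · rw [← h5, div_zero]
    positivity

end Pool.Agent.Results.MP_36ff57_co.DominatedEdge
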